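import Pool.Agent.Helper58.FLP.BDef

/-!
# FLP-B6b: presheaves on `Cat_n` and comparison maps
-/

open CategoryTheory MonoidalCategory CartesianMonoidalCategory Opposite

set_option autoImplicit false

namespace Pool.Agent.Helper28.FLCmp

open FL (SP MpS HoEq InjFib InjFibration Th Wr)
open FLP

noncomputable section

variable {n : ℕ} (H : CatIff n)

theorem kan_iff (F : FLP.PSh n) : F.Kan ↔ (toPSh H F).Kan :=
  ⟨fun h K => h (ofC H K), fun h C => h (toC H C)⟩

theorem act_eq (F : FLP.PSh n) {C C' : FLP.CatN n} {m : SimplexCategory} (ψ : C.Mx C' m)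
    (x : Sx (F.obj C') m) :
    F.act C C' ψ x = (toPSh H F).act (C := toC H C) (C' := toC H C') (k := op m) (ofMx ψ) x := by
  show F.act C C' ψ x = F.act C C' (toMx (ofMx ψ)) x
  rw [toMx_ofMx]

/-- Equivalences `F ⟶ G`: if `G'` is a presheaf on `FL.CatN n` with an isomorphism
`toPSh G ≅ G'` compatible with the actions. -/
theorem equiv_iff (F G : FLP.PSh n) (G' : FL.PSh n)
    (e : ∀ K : FL.CatN n, (toPSh H G).obj K ≅ G'.obj K)
    (he : ∀ {K K' : FL.CatN n} {k : SimplexCategoryᵒᵖ} (φ : MpS K.1 K'.1 k.unop)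
      (x : ((toPSh H G).obj K').obj k), (e K).hom.app k ((toPSh H G).act φ x) =
        G'.act φ ((e K').hom.app k x)) :
    PSh.Equiv F G ↔ FL.PSh.Equiv (toPSh H F) G' := by
  constructor
  · rintro ⟨f, hact, hf⟩
    refine ⟨⟨fun K => f (ofC H K) ≫ (e K).hom, fun {K K' k} φ x => ?_⟩, fun K => ?_⟩
    · have h1 := hact (ofC H K) (ofC H K') (m := k.unop) (toMx φ) x
      refine Eq.trans (congrArg ((e K).hom.app k) h1) ?_
      exact he φ _
    · exact Pool.Agent.Helper88.FL.hoEq_of_arrow_iso (Iso.refl _) (e K)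
        (Category.id_comp _).symm (hf (ofC H K))
  · rintro ⟨φ, hφ⟩
    refine ⟨fun C => φ.app (toC H C) ≫ (e (toC H C)).inv, fun C C' m ψ x => ?_, fun C => ?_⟩
    · have h1 := φ.act (C := toC H C) (C' := toC H C') (k := op m) (ofMx ψ) x
      have h2 := he (K := toC H C) (K' := toC H C') (k := op m) (ofMx ψ)
        ((e (toC H C')).inv.app (op m) ((φ.app (toC H C')).app (op m) x))
      have h3 : (e (toC H C')).hom.app (op m)
          ((e (toC H C')).inv.app (op m) ((φ.app (toC H C')).app (op m) x)) =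
          (φ.app (toC H C')).app (op m) x :=
        ConcreteCategory.congr_hom (NatTrans.congr_app (e (toC H C')).inv_hom_id (op m)) _
      rw [h3, ← h1] at h2
      have h4 := congrArg ((e (toC H C)).inv.app (op m)) h2
      have h5 : ∀ y : ((toPSh H G).obj (toC H C)).obj (op m), (e (toC H C)).inv.app (op m)
          ((e (toC H C)).hom.app (op m) y) = y := fun y =>
        ConcreteCategory.congr_hom (NatTrans.congr_app (e (toC H C)).hom_inv_id (op m)) y
      refine Eq.trans ?_ (h4.symm.trans ((h5 _).trans ?_))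
      · show (e (toC H C)).inv.app (op m) ((φ.app (toC H C)).app (op m) (F.act C C' ψ x)) = _
        rw [act_eq H F ψ x]
      · exact (act_eq H G ψ _).symm
    · refine Pool.Agent.Helper88.FL.hoEq_of_arrow_iso (Iso.refl _) (e (toC H C)).symm
        (Category.id_comp _).symm (hφ (toC H C))

section

variable {J : Type} [SmallCategory J]

/-- precomposition with an isomorphism -/
def preIso {A : Type} [SmallCategory A] {X X' : SP A} (e : X ≅ X') (Y : SP A) :
    Mp X' Y ≅ Mp X Y where
  hom := Mp.pre e.hom Y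
  inv := Mp.pre e.inv Y
  hom_inv_id := NatTrans.ext (funext fun m => ConcreteCategory.hom_ext _ _
    fun (φ : Mx X' Y m.unop) => by
      show (Mx.of e.inv m.unop).comp ((Mx.of e.hom m.unop).comp φ) = φ
      rw [← Mx.comp_assoc, ← Mx.of_comp, e.inv_hom_id, Mx.id_comp])
  inv_hom_id := NatTrans.ext (funext fun m => ConcreteCategory.hom_ext _ _
    fun (φ : Mx X Y m.unop) => by
      show (Mx.of e.hom m.unop).comp ((Mx.of e.inv m.unop).comp φ) = φ
      rw [← Mx.comp_assoc, ← Mx.of_comp, e.hom_inv_id, Mx.id_comp])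

theorem along_eq (F : FLP.PSh n) (p : PSh.Diag n J) :
    (toPSh H F).along p.p (fun j => (H _).1 (p.cat j)) = F.along p := rfl

theorem compare_eq (e : PSh.Wt J ≅ FL.W J) (F : FLP.PSh n) {p : PSh.Diag n J} {K : FLP.CatN n}
    {Λ : PSh.Cocone p K} {Λ' : FL.Hoco p.p ⟶ K.X} (h : Corr e Λ Λ') :
    (toPSh H F).compare p.p (fun j => (H _).1 (p.cat j)) ((H _).1 K.cat) Λ' ≫
      (mpIso (FL.W J) (F.along p)).hom ≫ (preIso e (F.along p)).hom = F.compare Λ := by
  refine NatTrans.ext (funext fun m => ConcreteCategory.hom_ext _ _ fun x => ?_)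
  refine NatTrans.ext (funext fun j => NatTrans.ext (funext fun k =>
    ConcreteCategory.hom_ext _ _ fun z => ?_))
  show F.act (p.at j.unop) K (toMx (FL.coneS Λ' ((e.hom.app j).app k z.1)))
      ((F.obj K).map (SSet.stdSimplex.objEquiv z.2).op x) =
    F.act (p.at j.unop) K ((Λ.app j).app k z.1) ((SSet.yonedaEquiv.symm x : _ ⟶ F.obj K).app k z.2)
  have h1 := h j.unop k.unop ((e.hom.app j).app k z.1)
  have h2 : (e.inv.app j).app k ((e.hom.app j).app k z.1) = z.1 :=
    ConcreteCategory.congr_hom (NatTrans.congr_app (NatTrans.congr_app e.hom_inv_id j) k) z.1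
  exact congrArg (fun t => F.act (p.at j.unop) K (m := k.unop) t
    ((F.obj K).map (SSet.stdSimplex.objEquiv z.2).op x))
    ((congrArg toMx h1).trans ((toMx_ofMx _).trans (congrArg ((Λ.app j).app k) h2)))

theorem compare_iff (e : PSh.Wt J ≅ FL.W J) (F : FLP.PSh n) {p : PSh.Diag n J} {K : FLP.CatN n}
    {Λ : PSh.Cocone p K} {Λ' : FL.Hoco p.p ⟶ K.X} (h : Corr e Λ Λ') :
    HoEq (F.compare Λ) ↔ HoEq ((toPSh H F).compare p.p (fun j => (H _).1 (p.cat j))
      ((H _).1 K.cat) Λ') := by
  constructor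
  · intro h1
    refine Pool.Agent.Helper88.FL.hoEq_of_arrow_iso (Iso.refl _)
      ((mpIso (FL.W J) (F.along p)).trans (preIso e (F.along p))).symm ?_ h1
    refine (Iso.comp_inv_eq _).2 ?_
    exact (compare_eq H e F h).symm
  · intro h1
    refine Pool.Agent.Helper88.FL.hoEq_of_arrow_iso (Iso.refl _)
      ((mpIso (FL.W J) (F.along p)).trans (preIso e (F.along p))) ?_ h1
    exact (compare_eq H e F h).trans (Category.id_comp _).symm

end

end

end Pool.Agent.Helper28.FLCmp
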